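import Mathlib
import Pool.Agent.Lib.MP_2e96e9_co.Defs
import Pool.Agent.Lib.MP_2e96e9_co.Main

/-!
# Hypergraphs witnessing failure of the fixed intersection property

`PSub`, `FixedIntersectionProperty`, `IsOrientation` and `iDegree` are defined in
`Pool.Agent.Lib.MP_2e96e9_co.Defs`.
-/

namespace Pool.Agent.Results.MP_2e96e9_co.Witness

open Pool.Agent.Lib.MP_2e96e9_co

/-- For all `1 ≤ p ≤ r` such that `[r]^(p)` does not have the fixed intersection property there
are a finite vertex set `V = Fin N` and an `r`-uniform hypergraph on `V` with edge set `G` with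
(a) a partition of `V^(p)` into `r.choose p` nonempty classes (the fibres of the surjection `W`)
no one of which contains all `p`-subsets of an edge, and
(b) for every orientation `D` of `G` a `p`-set `A` of vertices all of whose `I`-degrees,
`I ∈ [r]^(p)`, are positive. -/
theorem result (p r : ℕ) (hp : 1 ≤ p) (hpr : p ≤ r) (h : ¬ FixedIntersectionProperty r p) :
    ∃ (N : ℕ) (G : Finset (Finset (Fin N))), (∀ e ∈ G, e.card = r) ∧
      (∃ W : PSub (Fin N) p → Fin (r.choose p), Function.Surjective W ∧
        ∀ e ∈ G, ∀ i, ∃ A : PSub (Fin N) p, A.1 ⊆ e ∧ W A ≠ i) ∧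
      ∀ D : Finset (Fin N) → Fin r → Fin N, IsOrientation G D →
        ∃ A : PSub (Fin N) p, ∀ I : PSub (Fin r) p, 0 < iDegree G D I.1 A.1 :=
  main p r hp h

end Pool.Agent.Results.MP_2e96e9_co.Witness
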